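import Pool.Agent.FIExt.Main
import Pool.Agent.FIExt.Final
import Pool.Agent.FIExt.Top

/-!
# Ext between finitely generated FI-modules is eventually periodic
-/

open CategoryTheory CategoryTheory.Abelian Pool.Agent.FIExt

universe u

/-- For finitely generated FI-modules `V`, `W` over a field `k` of characteristic `p > 0` and every
`i`, the groups `Ext^i(V_n, W_n)` over `k[S_n]` are finite-dimensional and their dimension is
eventually periodic in `n`; if `W` is generated in degrees `< d`, every power `p ^ N ≥ d` is an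
eventual period. -/
theorem Pool.Agent.Results.MP_37892f_al.EventuallyPeriodic.result {k : Type u} [Field k] (p : ℕ)
    [Fact p.Prime] [CharP k p] (V W : FIMod k) (hV : FG V) (hW : FG W) :
    (∀ i n : ℕ, FiniteDimensional k (Ext (grpMod V n) (grpMod W n) i)) ∧
    (∀ i d N : ℕ, GenLT d W → d ≤ p ^ N → ∃ n₀ : ℕ, ∀ n ≥ n₀,
      Module.finrank k (Ext (grpMod V (n + p ^ N)) (grpMod W (n + p ^ N)) i) =
        Module.finrank k (Ext (grpMod V n) (grpMod W n) i)) ∧
    ∀ i : ℕ, ∃ P ≥ 1, ∃ n₀ : ℕ, ∀ n ≥ n₀,
      Module.finrank k (Ext (grpMod V (n + P)) (grpMod W (n + P)) i) =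
        Module.finrank k (Ext (grpMod V n) (grpMod W n) i) :=
  Top_proof (Final_proof Iso_final Gen_proof FinDim_proof) Gen_proof p V W hV hW
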